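import Pool.Agent.H66.IP.TC

/-! GLO: the value of a protocol (board ipf_modules, MP_0f8dca_lc). -/

set_option autoImplicit false

namespace Pool.Agent.H59.IP

open Finset Pool.Agent.H6.NB Pool.Agent.H70.OQ Pool.Agent.H70.EH Pool.Agent.H70.EI Pool.Agent.H78.XQ
open Pool.Agent.H75.OM (BPos)
open Pool.Agent.H66.IP

/-- a decision tree depends on finitely many strings -/
lemma DT_local (t : DT) : ∃ m : ℕ, ∀ O O' : List Bool → Bool,
    (∀ w, w.length ≤ m → O w = O' w) → t.eval O = t.eval O' := by
  induction t with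
  | leaf b => exact ⟨0, fun _ _ _ => rfl⟩
  | node w l r ihl ihr =>
    obtain ⟨m1, h1⟩ := ihl
    obtain ⟨m2, h2⟩ := ihr
    refine ⟨max w.length (max m1 m2), fun O O' h => ?_⟩
    have hw : O w = O' w := h w (le_max_left _ _)
    have e1 := h1 O O' (fun v hv => h v (hv.trans ((le_max_left _ _).trans (le_max_right _ _))))
    have e2 := h2 O O' (fun v hv => h v (hv.trans ((le_max_right _ _).trans (le_max_right _ _))))
    simp only [DT.eval]
    rw [hw, e1, e2]

lemma val_mem (G : Game) (O : List Bool → Bool) : 0 ≤ G.val O ∧ G.val O ≤ 1 := by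
  induction G with
  | test t =>
    unfold Game.val
    split_ifs <;> norm_num
  | coin l r ihl ihr =>
    unfold Game.val
    constructor <;> linarith [ihl.1, ihl.2, ihr.1, ihr.2]
  | say l r ihl ihr =>
    unfold Game.val
    exact ⟨le_max_of_le_left ihl.1, max_le ihl.2 ihr.2⟩

lemma val_local (G : Game) : ∃ m : ℕ,
    ∀ O O' : List Bool → Bool, (∀ w, w.length ≤ m → O w = O' w) → G.val O = G.val O' := by
  induction G with
  | test t =>
    obtain ⟨m, h⟩ := DT_local t
    refine ⟨m, fun O O' hO => ?_⟩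
    unfold Game.val
    rw [h O O' hO]
  | coin l r ihl ihr =>
    obtain ⟨m1, h1⟩ := ihl
    obtain ⟨m2, h2⟩ := ihr
    refine ⟨max m1 m2, fun O O' h => ?_⟩
    unfold Game.val
    rw [h1 O O' (fun v hv => h v (hv.trans (le_max_left _ _))),
      h2 O O' (fun v hv => h v (hv.trans (le_max_right _ _)))]
  | say l r ihl ihr =>
    obtain ⟨m1, h1⟩ := ihl
    obtain ⟨m2, h2⟩ := ihr
    refine ⟨max m1 m2, fun O O' h => ?_⟩
    unfold Game.val
    rw [h1 O O' (fun v hv => h v (hv.trans (le_max_left _ _))),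
      h2 O O' (fun v hv => h v (hv.trans (le_max_right _ _)))]

theorem pf_GLO : T_GLO := fun G => ⟨fun O => val_mem G O, val_local G⟩

end Pool.Agent.H59.IP
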