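import Pool.Agent.H66.IP.TC

/-! LOW: the extension without a requirement (board ipf_modules, MP_0f8dca_lc). -/

set_option autoImplicit false

namespace Pool.Agent.H59.IP

open Finset Pool.Agent.H6.NB Pool.Agent.H70.OQ Pool.Agent.H70.EH Pool.Agent.H70.EI Pool.Agent.H78.XQ
open Pool.Agent.H75.OM (BPos)
open Pool.Agent.H66.IP

/-- some content of the block says the answer `b` -/
lemma exists_OkB (hMSB : T_MSB) (hSPF : T_SPF) (V : ℕ → Local) (p : ℕ × List Bool) (b : Bool) :
    ∃ c : CP (dm V) p, OkB (qs (sp V p)) (sp V p).length (rns (sp V p)) (wln (sp V p)) b c := by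
  by_contra hcon
  have h0 : ∑ c : CP (dm V) p, mBp V p b c = 0 := by
    apply Finset.sum_eq_zero
    intro c _
    unfold mBp mB
    rw [if_neg (fun h => hcon ⟨c, h⟩)]
  have h1 := ((hMSB V p).2.2 b).2.2
  rw [h0] at h1
  have h2 : (1 / 8 : ℝ) ^ scl V p < 1 := by
    apply pow_lt_one₀ (by norm_num) (by norm_num)
    have := ((hSPF V).2.1 p).1
    omega
  norm_num at h1
  norm_num at h2
  linarith

open Classical in
theorem pf_LOW (hPMS : T_PMS) (hMSB : T_MSB) (hISZ : T_ISZ) (hSPF : T_SPF) (hFDC : T_FDC)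
    (hGLC : T_GLC) : T_LOW := by
  intro V M M' O hM hgood
  obtain ⟨-, hscl, -, hlen, hdis, hfin⟩ := hSPF V
  set E : Finset (ℕ × List Bool) := (hfin M').toFinset.filter (fun p => M < (sp V p).length) with hE
  have hmem : ∀ p, p ∈ E ↔ (sp V p).length ≤ M' ∧ M < (sp V p).length := by
    intro p
    rw [hE, Finset.mem_filter, Set.Finite.mem_toFinset]
    rfl
  obtain ⟨OO, hOO⟩ := hISZ (dm V) E
  obtain ⟨P, hP⟩ := hPMS {a // a ∈ E} (fun p => CP (dm V) p.1) (fun p => scl V p.1)
    (fun P p => decide ((V p.1.1).acc p.1.2 (OO P O)))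
    (fun b p c => OkB (qs (sp V p.1)) (sp V p.1).length (rns (sp V p.1)) (wln (sp V p.1)) b c)
    (fun b p => exists_OkB hMSB hSPF V p.1 b)
    (by
      intro i j P c hij
      have h1 := hFDC V E OO hOO P O i.1 j.1 j.2 c hij
      exact decide_eq_decide.2 h1)
  have hout : ∀ w, (w.length ≤ M ∨ ∃ p, (sp V p).length ≤ M ∧ BPos (dm V) p w) →
      OO P O w = O w := by
    intro w hw
    apply hOO.out
    intro p hp hb
    have hp2 := ((hmem p).1 hp).2
    rcases hw with hw | ⟨p', hp', hb'⟩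
    · have := (hlen p w hb).1
      omega
    · have := hdis p p' w hb hb'
      rw [← this] at hp'
      omega
  refine ⟨OO P O, hM, hout, ?_⟩
  intro p hp
  by_cases hpM : (sp V p).length ≤ M
  · apply hGLC V p O (OO P O) _ (hgood p hpM)
    intro w hw
    symm
    apply hout
    rcases hw with hw | hw
    · left
      have h1 := (hscl p).2.1
      have h0 := (hscl p).1
      have h2 : scl V p ≤ 16 * scl V p ^ 3 := by
        have h3 : 1 ≤ scl V p ^ 2 := Nat.one_le_pow _ _ (by omega)
        calc scl V p = scl V p * 1 := by ring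
          _ ≤ scl V p * scl V p ^ 2 := Nat.mul_le_mul_left _ h3
          _ = scl V p ^ 3 := by ring
          _ ≤ 16 * scl V p ^ 3 := by omega
      omega
    · right
      exact ⟨p, hpM, hw⟩
  · have hpE : p ∈ E := (hmem p).2 ⟨hp, by omega⟩
    have h1 := hP ⟨p, hpE⟩
    unfold Good
    have e1 : cps (OO P O) (sp V p) = (P ⟨p, hpE⟩).1 := hOO.blk P O p hpE
    have e2 : cst (OO P O) (sp V p) = (P ⟨p, hpE⟩).2 := hOO.cor P O p hpE
    rw [e1, e2]
    exact h1

end Pool.Agent.H59.IP
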